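import Pool.Agent.R619.Proj

/-!
# The number of isomorphism types of projective algebras generated by `k` plane sets

It is the cardinal of the continuum for every positive integer `k`.

Upper bound: an algebra generated by `k` sets is determined up to isomorphism by the set of the
equations between terms that hold for the generators, and there are countably many terms.
Lower bound: for each set `W` of natural numbers there is a plane set `cod W` such that `W` can be
read off the isomorphism type of the algebra generated by `cod W` with the generator distinguished;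
and a countable algebra has only countably many elements.
-/

set_option autoImplicit false

namespace Pool.Agent.Results.MP_71be7b_lc.Continuum

open Pool.Agent.R619.Proj

/-- `F` is a projective algebra generated by `k` subsets of the plane. -/
def IsKGenerated (k : ℕ) (F : Set (Set (ℝ × ℝ))) : Prop :=
  ∃ S : Fin k → Set (ℝ × ℝ), F = gen S

theorem IsKGenerated.isProjAlg {k : ℕ} {F : Set (Set (ℝ × ℝ))} (h : IsKGenerated k F) :
    IsProjAlg F := by
  obtain ⟨S, rfl⟩ := h; exact isProjAlg_gen S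

theorem isomorphic_refl (F : Set (Set (ℝ × ℝ))) : Isomorphic F F :=
  ⟨id, Set.bijOn_id F, fun _ _ => rfl, fun _ _ _ _ => rfl, fun _ _ => rfl, fun _ _ => rfl,
    fun _ _ _ _ _ _ => rfl⟩

theorem IsHom.subset_axX {φ : Set (ℝ × ℝ) → Set (ℝ × ℝ)} {F : Set (Set (ℝ × ℝ))}
    (h : IsHom φ F) (hF : IsProjAlg F) {A : Set (ℝ × ℝ)} (hA : A ∈ F) (hs : A ⊆ axX) :
    φ A ⊆ axX := by
  have e1 : φ axX = axX := by rw [← pi1_univ, h.pi1 _ hF.univ_mem, h.univ hF]
  have e2 : A ∪ axX = axX := Set.union_eq_right.2 hs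
  have e3 := h.union A hA _ hF.axX_mem
  rw [e2, e1] at e3
  exact Set.union_eq_right.1 e3.symm

theorem IsHom.subset_axY {φ : Set (ℝ × ℝ) → Set (ℝ × ℝ)} {F : Set (Set (ℝ × ℝ))}
    (h : IsHom φ F) (hF : IsProjAlg F) {A : Set (ℝ × ℝ)} (hA : A ∈ F) (hs : A ⊆ axY) :
    φ A ⊆ axY := by
  have e1 : φ axY = axY := by rw [← pi2_univ, h.pi2 _ hF.univ_mem, h.univ hF]
  have e2 : A ∪ axY = axY := Set.union_eq_right.2 hs
  have e3 := h.union A hA _ hF.axY_mem
  rw [e2, e1] at e3
  exact Set.union_eq_right.1 e3.symm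

theorem isomorphic_trans {F G H : Set (Set (ℝ × ℝ))} (hF : IsProjAlg F)
    (h1 : Isomorphic F G) (h2 : Isomorphic G H) : Isomorphic F H := by
  obtain ⟨f, hf⟩ := h1
  obtain ⟨g, hg⟩ := h2
  have m := hf.bij.mapsTo
  refine ⟨g ∘ f, hg.bij.comp hf.bij, fun A hA => ?_, fun A hA B hB => ?_, fun A hA => ?_,
    fun A hA => ?_, fun A hA B hB hx hy => ?_⟩
  · simp only [Function.comp]; rw [hf.compl A hA, hg.compl _ (m hA)]
  · simp only [Function.comp]; rw [hf.union A hA B hB, hg.union _ (m hA) _ (m hB)]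
  · simp only [Function.comp]; rw [hf.pi1 A hA, hg.pi1 _ (m hA)]
  · simp only [Function.comp]; rw [hf.pi2 A hA, hg.pi2 _ (m hA)]
  · simp only [Function.comp]
    rw [hf.dprod A hA B hB hx hy, hg.dprod _ (m hA) _ (m hB)
      (IsHom.subset_axX hf.isHom hF hA hx) (IsHom.subset_axY hf.isHom hF hB hy)]

theorem isomorphic_symm {F G : Set (Set (ℝ × ℝ))} (hF : IsProjAlg F)
    (h : Isomorphic F G) : Isomorphic G F := by
  obtain ⟨f, hf⟩ := h
  have hinv := hf.bij.invOn_invFunOn
  have hg : Set.BijOn (Function.invFunOn f F) G F := hf.bij.symm hinv.symm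
  have key : ∀ A ∈ F, Function.invFunOn f F (f A) = A := fun A hA => hinv.1 hA
  have key2 : ∀ A ∈ G, f (Function.invFunOn f F A) = A := fun A hA => hinv.2 hA
  refine ⟨Function.invFunOn f F, hg, fun A hA => ?_, fun A hA B hB => ?_, fun A hA => ?_,
    fun A hA => ?_, fun A hA B hB hx hy => ?_⟩
  · conv_lhs => rw [← key2 A hA]
    rw [← hf.compl _ (hg.mapsTo hA), key _ (hF.compl_mem _ (hg.mapsTo hA))]
  · conv_lhs => rw [← key2 A hA, ← key2 B hB]
    rw [← hf.union _ (hg.mapsTo hA) _ (hg.mapsTo hB),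
      key _ (hF.union_mem _ (hg.mapsTo hA) _ (hg.mapsTo hB))]
  · conv_lhs => rw [← key2 A hA]
    rw [← hf.pi1 _ (hg.mapsTo hA), key _ (hF.pi1_mem _ (hg.mapsTo hA))]
  · conv_lhs => rw [← key2 A hA]
    rw [← hf.pi2 _ (hg.mapsTo hA), key _ (hF.pi2_mem _ (hg.mapsTo hA))]
  · conv_lhs => rw [← key2 A hA, ← key2 B hB]
    rw [← hf.isHom.dprod' hF (hg.mapsTo hA) (hg.mapsTo hB),
      key _ (hF.dprod_mem' (hg.mapsTo hA) (hg.mapsTo hB))]

/-- The relation of isomorphism on the type of all projective algebras generated by `k` plane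
sets. -/
def isoSetoid (k : ℕ) : Setoid {F : Set (Set (ℝ × ℝ)) // IsKGenerated k F} where
  r F G := Isomorphic F.1 G.1
  iseqv := ⟨fun F => isomorphic_refl F.1,
    fun {F _} h => isomorphic_symm F.2.isProjAlg h,
    fun {F _ _} h1 h2 => isomorphic_trans F.2.isProjAlg h1 h2⟩

/-- Two tuples of generators satisfying the same equations generate isomorphic algebras. -/
theorem isomorphic_of_eqs {k : ℕ} (S S' : Fin k → Set (ℝ × ℝ))
    (h : {p : Tm k × Tm k | p.1.val S = p.2.val S} = {p : Tm k × Tm k | p.1.val S' = p.2.val S'}) :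
    Isomorphic (gen S) (gen S') := by
  have h' : ∀ s t : Tm k, s.val S = t.val S ↔ s.val S' = t.val S' := fun s t =>
    Set.ext_iff.1 h (s, t)
  have hex : ∀ A : Set (ℝ × ℝ), ∃ B : Set (ℝ × ℝ), ∀ t : Tm k, t.val S = A → t.val S' = B := by
    intro A
    by_cases hA : ∃ s : Tm k, s.val S = A
    · obtain ⟨s, hs⟩ := hA
      exact ⟨s.val S', fun t ht => ((h' t s).1 (ht.trans hs.symm))⟩
    · exact ⟨∅, fun t ht => absurd ⟨t, ht⟩ hA⟩
  choose φ hφ using hex
  have hv : ∀ t : Tm k, φ (t.val S) = t.val S' := fun t => (hφ _ t rfl).symm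
  refine ⟨φ, ⟨?_, ?_, ?_⟩, ?_, ?_, ?_, ?_, ?_⟩
  · rw [gen_eq_range, gen_eq_range]
    rintro _ ⟨t, rfl⟩
    exact ⟨t, (hv t).symm⟩
  · rw [gen_eq_range]
    rintro _ ⟨s, rfl⟩ _ ⟨t, rfl⟩ e
    simp only [hv] at e
    exact (h' s t).2 e
  · rw [gen_eq_range, gen_eq_range]
    rintro _ ⟨t, rfl⟩
    exact ⟨t.val S, ⟨t, rfl⟩, hv t⟩
  · rw [gen_eq_range]
    rintro _ ⟨t, rfl⟩
    simp only [hv]
    exact hv (.compl t)
  · rw [gen_eq_range]
    rintro _ ⟨s, rfl⟩ _ ⟨t, rfl⟩
    simp only [hv]
    exact hv (.union s t)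
  · rw [gen_eq_range]
    rintro _ ⟨t, rfl⟩
    simp only [hv]
    exact hv (.pi1 t)
  · rw [gen_eq_range]
    rintro _ ⟨t, rfl⟩
    simp only [hv]
    exact hv (.pi2 t)
  · rw [gen_eq_range]
    rintro _ ⟨s, rfl⟩ _ ⟨t, rfl⟩ _ _
    simp only [hv]
    exact hv (.dprod s t)

theorem le_card_of_fibres {X Q : Type} (h : X → Q) (κ : Cardinal)
    (hX : Cardinal.aleph0 ≤ Cardinal.mk X) (hκ : κ < Cardinal.mk X)
    (hfib : ∀ x, Cardinal.mk {y // h y = h x} ≤ κ) : Cardinal.mk X ≤ Cardinal.mk Q := by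
  by_contra hcon
  push Not at hcon
  have h1 : Cardinal.mk X = Cardinal.mk (Σ q : Q, {y : X // h y = q}) :=
    Cardinal.mk_congr (Equiv.sigmaFiberEquiv h).symm
  have h2 : Cardinal.mk (Σ q : Q, {y : X // h y = q}) ≤ Cardinal.mk Q * κ := by
    rw [Cardinal.mk_sigma]
    refine (Cardinal.sum_le_sum _ (fun _ => κ) (fun q => ?_)).trans ?_
    · by_cases hq : ∃ x, h x = q
      · obtain ⟨x, rfl⟩ := hq
        exact hfib x
      · have : IsEmpty {y : X // h y = q} := ⟨fun y => hq ⟨y.1, y.2⟩⟩
        rw [Cardinal.mk_eq_zero]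
        exact bot_le
    · simp
  have h3 : Cardinal.mk Q * κ < Cardinal.mk X := Cardinal.mul_lt_of_lt hX hcon hκ
  exact absurd (h1.le.trans h2) (not_le.2 h3)

/-- For every positive integer `k` the number of isomorphism classes of projective algebras
generated by `k` subsets of the plane is the cardinal of the continuum. -/
theorem result (k : ℕ) (hk : 1 ≤ k) :
    Cardinal.mk (Quotient (isoSetoid k)) = Cardinal.continuum := by
  apply le_antisymm
  · -- upper bound
    have hrep : ∀ q : Quotient (isoSetoid k), ∃ S : Fin k → Set (ℝ × ℝ),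
        Quotient.mk (isoSetoid k) ⟨gen S, S, rfl⟩ = q := by
      intro q
      induction q using Quotient.inductionOn with
      | h F =>
        obtain ⟨F, S, rfl⟩ := F
        exact ⟨S, rfl⟩
    choose S hS using hrep
    have hinj : Function.Injective (fun q : Quotient (isoSetoid k) =>
        {p : Tm k × Tm k | p.1.val (S q) = p.2.val (S q)}) := by
      intro q q' e
      rw [← hS q, ← hS q']
      exact Quotient.sound (s := isoSetoid k) (isomorphic_of_eqs _ _ e)
    refine (Cardinal.mk_le_of_injective hinj).trans ?_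
    rw [Cardinal.mk_set, ← Cardinal.two_power_aleph0]
    exact Cardinal.power_le_power_left two_ne_zero (Cardinal.mk_le_aleph0)
  · -- lower bound
    have hmk : Cardinal.mk (Set ℕ) = Cardinal.continuum := by
      rw [Cardinal.mk_set, Cardinal.mk_nat, Cardinal.two_power_aleph0]
    rw [← hmk]
    let i0 : Fin k := ⟨0, hk⟩
    refine le_card_of_fibres (fun W : Set ℕ =>
      (Quotient.mk (isoSetoid k) ⟨gen (fun _ : Fin k => cod W), _, rfl⟩ : Quotient (isoSetoid k)))
      Cardinal.aleph0 ?_ ?_ ?_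
    · rw [hmk]; exact Cardinal.aleph0_le_continuum
    · rw [hmk]; exact Cardinal.aleph0_lt_continuum
    · intro W
      have hch : ∀ y : {y : Set ℕ // (Quotient.mk (isoSetoid k)
          ⟨gen (fun _ : Fin k => cod y), _, rfl⟩ : Quotient (isoSetoid k)) =
          Quotient.mk (isoSetoid k) ⟨gen (fun _ : Fin k => cod W), _, rfl⟩},
          ∃ φ, IsIso φ (gen (fun _ : Fin k => cod y.1)) (gen (fun _ : Fin k => cod W)) :=
        fun y => Quotient.exact y.2
      choose φ hφ using hch
      have : Countable (gen (fun _ : Fin k => cod W)) := (gen_countable _).to_subtype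
      rw [Cardinal.mk_le_aleph0_iff]
      refine Function.Injective.countable (β := gen (fun _ : Fin k => cod W))
        (f := fun y => ⟨φ y (cod y.1),
          (hφ y).bij.mapsTo (mem_gen (fun _ : Fin k => cod y.1) i0)⟩) ?_
      intro y z hyz
      apply Subtype.ext
      exact cod_determined (isProjAlg_gen _) (isProjAlg_gen _) (hφ y).isHom (hφ z).isHom
        (hφ y).bij.injOn (hφ z).bij.injOn
        (mem_gen (fun _ : Fin k => cod y.1) i0) (mem_gen (fun _ : Fin k => cod z.1) i0)
        (congrArg Subtype.val hyz)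

end Pool.Agent.Results.MP_71be7b_lc.Continuum
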